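import Pool.Agent.H82.EQ.VF

/-!
# The volume of the cusps: the target VF
-/

set_option autoImplicit false

open MeasureTheory Set

namespace Pool.Agent.H82.EQ

/-- exchange the coordinate `b` with the last coordinate `-(z_1 + ... + z_m)` -/
noncomputable def flip {m : ℕ} (b : Fin m) : (Fin m → ℝ) →ₗ[ℝ] (Fin m → ℝ) where
  toFun z := Function.update z b (-(∑ i, z i))
  map_add' x y := by
    funext i
    by_cases h : i = b
    · subst h
      simp only [Function.update_self, Pi.add_apply, Finset.sum_add_distrib]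
      ring
    · simp only [Function.update_of_ne h, Pi.add_apply]
  map_smul' c x := by
    funext i
    by_cases h : i = b
    · subst h
      simp only [Function.update_self, Pi.smul_apply, smul_eq_mul, RingHom.id_apply,
        ← Finset.mul_sum]
      ring
    · simp only [Function.update_of_ne h, Pi.smul_apply, RingHom.id_apply]

theorem flip_self {m : ℕ} (b : Fin m) (z : Fin m → ℝ) : flip b z b = -(∑ i, z i) := by
  show Function.update z b (-(∑ i, z i)) b = _
  rw [Function.update_self]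

theorem flip_ne {m : ℕ} (b : Fin m) (z : Fin m → ℝ) {i : Fin m} (h : i ≠ b) :
    flip b z i = z i := by
  show Function.update z b (-(∑ i, z i)) i = _
  rw [Function.update_of_ne h]

theorem sum_flip {m : ℕ} (b : Fin m) (z : Fin m → ℝ) : ∑ i, flip b z i = -z b := by
  rw [← Finset.add_sum_erase _ _ (Finset.mem_univ b), flip_self,
    Finset.sum_congr rfl (g := fun i => z i) fun i hi => flip_ne b z (Finset.ne_of_mem_erase hi),
    ← Finset.add_sum_erase Finset.univ (fun i => z i) (Finset.mem_univ b)]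
  ring

theorem flip_flip {m : ℕ} (b : Fin m) (z : Fin m → ℝ) : flip b (flip b z) = z := by
  funext i
  by_cases h : i = b
  · subst h
    rw [flip_self, sum_flip, neg_neg]
  · rw [flip_ne b _ h, flip_ne b _ h]

theorem abs_det_flip {m : ℕ} (b : Fin m) : |LinearMap.det (flip b)| = 1 := by
  have h : (flip b) ∘ₗ (flip b) = LinearMap.id := by
    apply LinearMap.ext
    intro z
    exact flip_flip b z
  have h2 := congrArg LinearMap.det h
  rw [LinearMap.det_comp, LinearMap.det_id] at h2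
  have h3 : |LinearMap.det (flip b)| * |LinearMap.det (flip b)| = 1 := by
    rw [← abs_mul, h2, abs_one]
  nlinarith [abs_nonneg (LinearMap.det (flip b))]

theorem vol_flip {m : ℕ} (b : Fin m) (s : Set (Fin m → ℝ)) :
    volume ((flip b) ⁻¹' s) = volume s := by
  have h := abs_det_flip b
  have h0 : LinearMap.det (flip b) ≠ 0 := by
    intro e
    rw [e, abs_zero] at h
    exact zero_ne_one h
  rw [Measure.addHaar_preimage_linearMap volume h0, abs_inv, h]
  simp

theorem prod_flip {m : ℕ} (b : Fin m) (z : Fin m → ℝ) :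
    |∏ i, flip b z i| * |z b| = |∏ i, z i| * |∑ i, z i| := by
  rw [← Finset.mul_prod_erase _ _ (Finset.mem_univ b), flip_self,
    Finset.prod_congr rfl (g := fun i => z i) fun i hi => flip_ne b z (Finset.ne_of_mem_erase hi),
    ← Finset.mul_prod_erase Finset.univ (fun i => z i) (Finset.mem_univ b), abs_mul, abs_mul,
    abs_neg]
  ring

theorem pz_flip {m : ℕ} (b : Fin m) (z : Fin m → ℝ) : pz (flip b z) = pz z := by
  unfold pz
  rw [sum_flip, abs_mul, abs_neg, prod_flip, abs_mul]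

theorem norm_sum_le {m : ℕ} (z : Fin m → ℝ) : |∑ i, z i| ≤ m * ‖z‖ := by
  refine (Finset.abs_sum_le_sum_abs _ _).trans ?_
  refine (Finset.sum_le_card_nsmul _ _ ‖z‖ fun i _ => norm_le_pi_norm z i).trans ?_
  rw [Finset.card_univ, Fintype.card_fin, nsmul_eq_mul]

/-- membership in `Gj` -/
theorem mem_Gj {k : ℕ} {j : Fin (k + 1)} {a M H : ℝ} {z : Fin (k + 1) → ℝ} (hM : 1 ≤ M)
    (h1 : a < |z j|) (h2 : ∀ i, |z i| ≤ |z j|) (h3 : |z j| ≤ H)
    (h4 : H ≤ M * |∑ i, z i|) (h5 : pz z ≤ 1) (h6 : 0 < |z j|) : z ∈ Gj j a M := by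
  refine ⟨h1, fun i => (h2 _).trans ?_, ?_⟩
  · nlinarith
  · unfold pz at h5
    rw [Fin.prod_univ_succAbove _ j, abs_mul, abs_mul, Finset.abs_prod] at h5
    rw [le_div_iff₀ (by positivity)]
    have hP : 0 ≤ ∏ i, |z (j.succAbove i)| := Finset.prod_nonneg fun i _ => abs_nonneg _
    obtain ⟨P, hPe⟩ : ∃ P : ℝ, P = ∏ i, |z (j.succAbove i)| := ⟨_, rfl⟩
    rw [← hPe] at h5 hP ⊢
    have e1 : P * |z j| ^ 2 ≤ P * (|z j| * (M * |∑ i, z i|)) := by
      apply mul_le_mul_of_nonneg_left _ hP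
      rw [pow_two]
      exact mul_le_mul_of_nonneg_left (h3.trans h4) h6.le
    have e2 : P * (|z j| * (M * |∑ i, z i|)) = M * (|z j| * P * |∑ i, z i|) := by ring
    have e3 : M * (|z j| * P * |∑ i, z i|) ≤ M * 1 :=
      mul_le_mul_of_nonneg_left h5 (by linarith)
    nlinarith

/-- the cover -/
theorem cover {k : ℕ} (hk : 1 ≤ k) {lam : ℝ} (hl : 1 ≤ lam) :
    {z : Fin (k + 1) → ℝ | pz z ≤ 1 ∧ lam < hz z} ⊆
      (⋃ j, Gj j (lam / ((k : ℝ) + 1)) ((k : ℝ) + 1)) ∪
        ⋃ b, ⋃ j, (flip b) ⁻¹' Gj j (lam / ((k : ℝ) + 1)) ((k : ℝ) + 1) := by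
  intro z hzz
  obtain ⟨h1, h2⟩ := hzz
  have hk0 : (1 : ℝ) ≤ k := by exact_mod_cast hk
  obtain ⟨M, hM⟩ : ∃ M : ℝ, M = (k : ℝ) + 1 := ⟨_, rfl⟩
  rw [← hM]
  have hM1 : 2 ≤ M := by linarith
  obtain ⟨H, hH⟩ : ∃ H : ℝ, H = hz z := ⟨_, rfl⟩
  rw [← hH] at h2
  have hH0 : 0 < H := by linarith
  obtain ⟨j, hj⟩ : ∃ j, ∀ i, |z i| ≤ |z j| := Finite.exists_max fun i => |z i|
  have hnj : ‖z‖ = |z j| := by
    apply le_antisymm
    · exact (pi_norm_le_iff_of_nonneg (abs_nonneg _)).2 hj
    · exact norm_le_pi_norm z j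
  have hs : |∑ i, z i| ≤ M * |z j| := by
    have := norm_sum_le z
    rw [hnj] at this
    rw [hM]
    exact_mod_cast this
  have hHM : H ≤ M * |z j| := by
    rw [hH, hz, hnj]
    apply max_le
    · nlinarith [abs_nonneg (z j)]
    · exact hs
  have hjH : |z j| ≤ H := by
    rw [hH, hz, hnj]
    exact le_max_left _ _
  have hsH : |∑ i, z i| ≤ H := by
    rw [hH, hz]
    exact le_max_right _ _
  have hzj : H / M ≤ |z j| := by
    rw [div_le_iff₀ (by linarith)]
    linarith
  have hlj : lam / M < |z j| := lt_of_lt_of_le (div_lt_div_of_pos_right h2 (by linarith)) hzj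
  have hj0 : 0 < |z j| := lt_of_lt_of_le (by positivity) hzj
  by_cases hc : H ≤ M * |∑ i, z i|
  · left
    rw [mem_iUnion]
    exact ⟨j, mem_Gj (by linarith) hlj hj hjH hc h1 hj0⟩
  · right
    push Not at hc
    have hHj : H = |z j| := by
      rw [hH, hz, hnj]
      apply max_eq_left
      have h7 : H ≤ |z j| ∨ H ≤ |∑ i, z i| := by
        rw [hH, hz, hnj]
        exact le_max_iff.1 le_rfl
      rcases h7 with h7 | h7
      · linarith
      · exfalso
        nlinarith [abs_nonneg (∑ i, z i)]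
    obtain ⟨b, hb1, hb2⟩ : ∃ b, b ≠ j ∧ H ≤ M * |z b| := by
      by_contra hcon
      push Not at hcon
      have e1 : z j = ∑ i, z i - ∑ i ∈ Finset.univ.erase j, z i := by
        rw [← Finset.add_sum_erase Finset.univ (fun i => z i) (Finset.mem_univ j)]
        ring
      have e2 : |∑ i ∈ Finset.univ.erase j, z i| ≤ k * (H / M) := by
        refine (Finset.abs_sum_le_sum_abs _ _).trans ?_
        refine (Finset.sum_le_card_nsmul _ _ (H / M) fun i hi => ?_).trans ?_
        · rw [le_div_iff₀ (by linarith)]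
          linarith [hcon i (Finset.ne_of_mem_erase hi)]
        · rw [Finset.card_erase_of_mem (Finset.mem_univ j), Finset.card_univ, Fintype.card_fin,
            nsmul_eq_mul]
          simp
      have e3 : |z j| ≤ |∑ i, z i| + k * (H / M) := by
        rw [e1]
        refine (abs_sub _ _).trans ?_
        linarith
      have e4 : |∑ i, z i| < H / M := by
        rw [lt_div_iff₀ (by linarith)]
        linarith
      have e5 : H / M + k * (H / M) = H := by
        have e6 : H / M + k * (H / M) = H / M * ((k : ℝ) + 1) := by ring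
        rw [e6, ← hM, div_mul_cancel₀ _ (by linarith : M ≠ 0)]
      rw [← hHj] at e3
      linarith
    rw [mem_iUnion]
    refine ⟨b, ?_⟩
    rw [mem_iUnion]
    refine ⟨j, ?_⟩
    rw [mem_preimage]
    have f1 : flip b z j = z j := flip_ne b z (Ne.symm hb1)
    apply mem_Gj (H := H) (by linarith)
    · rw [f1]
      exact hlj
    · intro i
      rw [f1]
      by_cases hi : i = b
      · subst hi
        rw [flip_self, abs_neg, ← hHj]
        exact hsH
      · rw [flip_ne b z hi]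
        exact hj i
    · rw [f1]
      exact hjH
    · rw [sum_flip, abs_neg]
      exact hb2
    · rw [pz_flip]
      exact h1
    · rw [f1]
      exact hj0

/-- VF -/
theorem vf : T_VF := by
  intro m hm
  obtain ⟨k, rfl⟩ : ∃ k, m = k + 1 := ⟨m - 1, by omega⟩
  have hk : 1 ≤ k := by omega
  obtain ⟨M, hM⟩ : ∃ M : ℝ, M = (k : ℝ) + 1 := ⟨_, rfl⟩
  have hM0 : 0 < M := by rw [hM]; positivity
  obtain ⟨c, hc⟩ : ∃ c : ℝ, c = 4 * ((M ^ 2) ^ (1 - 1 / (2 * ((k : ℝ) + 2))) *
      (2 * (M ^ (1 / (2 * ((k : ℝ) + 2))) * (2 * ((k : ℝ) + 2)))) ^ k) := ⟨_, rfl⟩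
  have hc0 : 0 < c := by
    rw [hc]
    positivity
  refine ⟨(M + M * M) * (c * M ^ (1 / 2 : ℝ)), by positivity, fun lam hl => ?_⟩
  have hl0 : 0 < lam := by linarith
  have hG : ∀ j : Fin (k + 1), volume (Gj j (lam / M) M) ≤
      ENNReal.ofReal (c * (lam / M) ^ (-(1 / 2) : ℝ)) := by
    intro j
    have := vol_Gj j (a := lam / M) (M := M) (by positivity) hM0
    rwa [← hc] at this
  have e0 : c * (lam / M) ^ (-(1 / 2) : ℝ) = c * M ^ (1 / 2 : ℝ) * lam ^ (-(1 / 2) : ℝ) := by
    rw [Real.div_rpow hl0.le hM0.le, Real.rpow_neg hM0.le]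
    field_simp
  rw [e0] at hG
  obtain ⟨B, hB⟩ : ∃ B : ℝ, B = c * M ^ (1 / 2 : ℝ) * lam ^ (-(1 / 2) : ℝ) := ⟨_, rfl⟩
  rw [← hB] at hG
  have hB0 : 0 ≤ B := by rw [hB]; positivity
  have hcard : ((k + 1 : ℕ) : ENNReal) = ENNReal.ofReal M := by
    rw [hM, ← ENNReal.ofReal_natCast]
    push_cast
    rfl
  have hsum : ∀ f : Fin (k + 1) → Set (Fin (k + 1) → ℝ), ∀ D : ℝ, 0 ≤ D →
      (∀ j, volume (f j) ≤ ENNReal.ofReal D) → volume (⋃ j, f j) ≤ ENNReal.ofReal (M * D) := by
    intro f D hD hf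
    refine (measure_iUnion_fintype_le _ _).trans ?_
    refine (Finset.sum_le_card_nsmul _ _ _ fun j _ => hf j).trans ?_
    rw [Finset.card_univ, Fintype.card_fin, nsmul_eq_mul, hcard, ← ENNReal.ofReal_mul hM0.le]
  calc volume {z : Fin (k + 1) → ℝ | pz z ≤ 1 ∧ lam < hz z}
      ≤ volume ((⋃ j, Gj j (lam / M) M) ∪ ⋃ b, ⋃ j, (flip b) ⁻¹' Gj j (lam / M) M) := by
        rw [hM]
        exact measure_mono (cover hk hl)
    _ ≤ volume (⋃ j, Gj j (lam / M) M) +
        volume (⋃ b, ⋃ j, (flip b) ⁻¹' Gj j (lam / M) M) := measure_union_le _ _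
    _ ≤ ENNReal.ofReal (M * B) + ENNReal.ofReal (M * (M * B)) := by
        refine add_le_add (hsum _ B hB0 hG) (hsum _ (M * B) (by positivity) fun b => ?_)
        refine hsum _ B hB0 fun j => ?_
        rw [vol_flip]
        exact hG j
    _ = ENNReal.ofReal ((M + M * M) * (c * M ^ (1 / 2 : ℝ)) * lam ^ (-(1 / 2) : ℝ)) := by
        rw [← ENNReal.ofReal_add (by positivity) (by positivity)]
        congr 1
        rw [hB]
        ring

end Pool.Agent.H82.EQ
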