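import Pool.Agent.H82.EQ.VF2

/-!
# Scaling of the volumes: the target VS
-/

set_option autoImplicit false

open MeasureTheory Set
open scoped Pointwise

namespace Pool.Agent.H82.EQ

theorem pz_smul {m : ℕ} {s : ℝ} (hs : 0 ≤ s) (z : Fin m → ℝ) :
    pz (s • z) = s ^ (m + 1) * pz z := by
  unfold pz
  have e1 : ∏ i, (s • z) i = s ^ m * ∏ i, z i := by
    simp only [Pi.smul_apply, smul_eq_mul]
    rw [Finset.prod_mul_distrib, Finset.prod_const, Finset.card_univ, Fintype.card_fin]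
  have e2 : ∑ i, (s • z) i = s * ∑ i, z i := by
    simp only [Pi.smul_apply, smul_eq_mul]
    rw [Finset.mul_sum]
  rw [e1, e2, show s ^ m * (∏ i, z i) * (s * ∑ i, z i) = s ^ (m + 1) * ((∏ i, z i) * ∑ i, z i) by
    ring, abs_mul, abs_of_nonneg (pow_nonneg hs _)]

theorem hz_smul {m : ℕ} {s : ℝ} (hs : 0 ≤ s) (z : Fin m → ℝ) : hz (s • z) = s * hz z := by
  unfold hz
  have e2 : ∑ i, (s • z) i = s * ∑ i, z i := by
    simp only [Pi.smul_apply, smul_eq_mul]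
    rw [Finset.mul_sum]
  rw [e2, norm_smul, abs_mul, Real.norm_eq_abs, abs_of_nonneg hs, mul_max_of_nonneg _ _ hs]

theorem vol_smul {m : ℕ} {s : ℝ} (hs : 0 < s) (A : Set (Fin m → ℝ)) :
    volume {z : Fin m → ℝ | s⁻¹ • z ∈ A} = ENNReal.ofReal (s ^ m) * volume A := by
  have e : {z : Fin m → ℝ | s⁻¹ • z ∈ A} = s • A := by
    ext z
    rw [mem_smul_set_iff_inv_smul_mem₀ hs.ne']
    rfl
  rw [e, Measure.addHaar_smul, Module.finrank_fin_fun, abs_of_nonneg (pow_nonneg hs.le _)]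

theorem pz_nonneg {m : ℕ} (z : Fin m → ℝ) : 0 ≤ pz z := abs_nonneg _

theorem hz_nonneg {m : ℕ} (z : Fin m → ℝ) : 0 ≤ hz z := (norm_nonneg z).trans (le_max_left _ _)

theorem vol_box_ne_top {m : ℕ} (H : ℝ) : volume {z : Fin m → ℝ | hz z ≤ H} ≠ ⊤ := by
  have h1 : {z : Fin m → ℝ | hz z ≤ H} ⊆ Metric.closedBall 0 H := by
    intro z hzz
    rw [mem_closedBall_zero_iff]
    exact (le_max_left _ _).trans hzz
  exact ne_top_of_le_ne_top measure_closedBall_lt_top.ne (measure_mono h1)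

theorem vol_ne_top {m : ℕ} (hm : 2 ≤ m) : volume {z : Fin m → ℝ | pz z ≤ 1} ≠ ⊤ := by
  obtain ⟨C, hC, h⟩ := vf m hm
  have h1 : {z : Fin m → ℝ | pz z ≤ 1} ⊆
      {z : Fin m → ℝ | hz z ≤ 1} ∪ {z | pz z ≤ 1 ∧ 1 < hz z} := by
    intro z hzz
    rcases le_or_gt (hz z) 1 with h2 | h2
    · exact Or.inl h2
    · exact Or.inr ⟨hzz, h2⟩
  refine ne_top_of_le_ne_top ?_ (measure_mono h1)
  refine ne_top_of_le_ne_top ?_ (measure_union_le _ _)
  exact ENNReal.add_ne_top.2 ⟨vol_box_ne_top 1, ne_top_of_le_ne_top ENNReal.ofReal_ne_top (h 1 le_rfl)⟩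

theorem vol_pos {m : ℕ} : 0 < volume {z : Fin m → ℝ | pz z ≤ 1} := by
  have h1 : Metric.ball (0 : Fin m → ℝ) (1 / ((m : ℝ) + 1)) ⊆ {z : Fin m → ℝ | pz z ≤ 1} := by
    intro z hzz
    rw [mem_ball_zero_iff] at hzz
    show pz z ≤ 1
    unfold pz
    rw [abs_mul, Finset.abs_prod]
    have hm : (0 : ℝ) ≤ m := Nat.cast_nonneg m
    have h2 : (1 : ℝ) / (m + 1) ≤ 1 := by
      rw [div_le_one (by linarith)]
      linarith
    have h3 : ∏ i, |z i| ≤ 1 := by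
      apply Finset.prod_le_one
      · intro i _
        exact abs_nonneg _
      · intro i _
        have : |z i| ≤ ‖z‖ := norm_le_pi_norm z i
        linarith
    have h4 : |∑ i, z i| ≤ 1 := by
      refine (norm_sum_le z).trans ?_
      have h5 : (m : ℝ) * ‖z‖ ≤ m * (1 / (m + 1)) := mul_le_mul_of_nonneg_left hzz.le hm
      refine h5.trans ?_
      rw [mul_one_div, div_le_one (by linarith)]
      linarith
    exact mul_le_one₀ h3 (abs_nonneg _) h4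
  exact lt_of_lt_of_le (Metric.measure_ball_pos volume 0 (by positivity)) (measure_mono h1)

theorem V_pos {m : ℕ} (hm : 2 ≤ m) : 0 < V m :=
  ENNReal.toReal_pos vol_pos.ne' (vol_ne_top hm)

theorem rpow_pow_eq {m : ℕ} {T : ℝ} (hT : 0 < T) :
    (T ^ (1 / ((m : ℝ) + 1))) ^ m = T ^ ((m : ℝ) / (m + 1)) := by
  rw [← Real.rpow_natCast, ← Real.rpow_mul hT.le]
  congr 1
  ring

theorem rpow_pow_succ {m : ℕ} {T : ℝ} (hT : 0 < T) :
    (T ^ (1 / ((m : ℝ) + 1))) ^ (m + 1) = T := by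
  have h : ((m : ℝ) + 1) ≠ 0 := by positivity
  rw [← Real.rpow_natCast, ← Real.rpow_mul hT.le]
  push_cast
  rw [one_div, inv_mul_cancel₀ h, Real.rpow_one]

theorem pz_inv {m : ℕ} {T : ℝ} (hT : 0 < T) (z : Fin m → ℝ) :
    pz ((T ^ (1 / ((m : ℝ) + 1)))⁻¹ • z) ≤ 1 ↔ pz z ≤ T := by
  have hs : 0 < T ^ (1 / ((m : ℝ) + 1)) := Real.rpow_pos_of_pos hT _
  rw [pz_smul (inv_nonneg.2 hs.le), inv_pow, rpow_pow_succ hT, inv_mul_le_iff₀ hT, mul_one]

/-- VS -/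
theorem vs : T_VS := by
  intro m hm
  refine ⟨V_pos hm, vol_ne_top hm, fun T hT => ?_, ?_⟩
  · have hs : 0 < T ^ (1 / ((m : ℝ) + 1)) := Real.rpow_pos_of_pos hT _
    have e := vol_smul hs {z : Fin m → ℝ | pz z ≤ 1}
    have e2 : {z : Fin m → ℝ | (T ^ (1 / ((m : ℝ) + 1)))⁻¹ • z ∈ {z : Fin m → ℝ | pz z ≤ 1}} =
        {z : Fin m → ℝ | pz z ≤ T} := by
      ext z
      exact pz_inv hT z
    rw [e2, rpow_pow_eq hT] at e
    rw [e, mul_comm (V m), ENNReal.ofReal_mul (by positivity)]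
    congr 1
    exact (ENNReal.ofReal_toReal (vol_ne_top hm)).symm
  · obtain ⟨C, hC, h⟩ := vf m hm
    refine ⟨C, hC, fun T lam hT hl => ?_⟩
    have hs : 0 < T ^ (1 / ((m : ℝ) + 1)) := Real.rpow_pos_of_pos hT _
    have e := vol_smul hs {z : Fin m → ℝ | pz z ≤ 1 ∧ lam < hz z}
    have e2 : {z : Fin m → ℝ | (T ^ (1 / ((m : ℝ) + 1)))⁻¹ • z ∈
        {z : Fin m → ℝ | pz z ≤ 1 ∧ lam < hz z}} =
        {z : Fin m → ℝ | pz z ≤ T ∧ lam * T ^ (1 / ((m : ℝ) + 1)) < hz z} := by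
      ext z
      refine and_congr (pz_inv hT z) ?_
      rw [hz_smul (inv_nonneg.2 hs.le), lt_inv_mul_iff₀ hs, mul_comm]
    rw [e2, rpow_pow_eq hT] at e
    rw [e, mul_comm (C * _), ENNReal.ofReal_mul (by positivity)]
    exact mul_le_mul_right (h lam hl) _

end Pool.Agent.H82.EQ
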