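import Mathlib
import Pool.Agent.H38.AE.Statement
import Pool.Agent.H38.AT.Stmt

/-!
# Equidistribution of admissible tuples ordered by radical: targets of the counting side

MP_7ecdd4_nt. `n = m + 1`; the points of the hyperplane `x_1 + ... + x_n = 0` are given by their
first `m` coordinates.
-/

set_option autoImplicit false

open MeasureTheory
open Pool.Agent.H38.AE.Statement (Admissible radical)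
open Pool.Agent.H38.AT (height Violators)

namespace Pool.Agent.H82.EQ

/-- `|z_1 ... z_m (z_1 + ... + z_m)|` -/
noncomputable def pz {m : ℕ} (z : Fin m → ℝ) : ℝ := |(∏ i, z i) * ∑ i, z i|

/-- the largest one of `|z_1|, ..., |z_m|, |z_1 + ... + z_m|` -/
noncomputable def hz {m : ℕ} (z : Fin m → ℝ) : ℝ := max ‖z‖ |∑ i, z i|

/-- the region `pz z ≤ T`, `hz z ≤ H` -/
def Rg (m : ℕ) (T H : ℝ) : Set (Fin m → ℝ) := {z | pz z ≤ T ∧ hz z ≤ H}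

/-- the volume of `pz z ≤ 1` -/
noncomputable def V (m : ℕ) : ℝ := (volume {z : Fin m → ℝ | pz z ≤ 1}).toReal

/-- the excess `|x_1 ... x_n| / rad` -/
def exc {n : ℕ} (x : Fin n → ℤ) : ℕ := (∏ i, x i).natAbs / radical (∏ i, x i)

/-- the small exponent -/
noncomputable def e0 (n : ℕ) : ℝ := 1 / (8 * (n : ℝ) ^ 2)

/-! ## Volumes -/

/-- VF: the volume of the cusps. -/
def T_VF : Prop := ∀ m : ℕ, 2 ≤ m → ∃ C : ℝ, 0 < C ∧ ∀ lam : ℝ, 1 ≤ lam →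
  volume {z : Fin m → ℝ | pz z ≤ 1 ∧ lam < hz z} ≤ ENNReal.ofReal (C * lam ^ (-(1 / 2) : ℝ))

/-- VS: scaling. -/
def T_VS : Prop := ∀ m : ℕ, 2 ≤ m → 0 < V m ∧ volume {z : Fin m → ℝ | pz z ≤ 1} ≠ ⊤ ∧
  (∀ T : ℝ, 0 < T → volume {z : Fin m → ℝ | pz z ≤ T} =
    ENNReal.ofReal (V m * T ^ ((m : ℝ) / (m + 1)))) ∧
  ∃ C : ℝ, 0 < C ∧ ∀ T lam : ℝ, 0 < T → 1 ≤ lam →
    volume {z : Fin m → ℝ | pz z ≤ T ∧ lam * T ^ (1 / ((m : ℝ) + 1)) < hz z} ≤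
      ENNReal.ofReal (C * lam ^ (-(1 / 2) : ℝ) * T ^ ((m : ℝ) / (m + 1)))

/-- VB: the volume of the part of the box `hz z ≤ 2 H` which is near to the boundary of
`Rg m T H`. -/
def T_VB : Prop := ∀ m : ℕ, 2 ≤ m → ∃ C : ℝ, 0 < C ∧ ∀ T H Z del : ℝ, 0 < T → 0 < H → 0 < Z →
  Z ≤ H → 0 < del → del ≤ 1 → T ≤ H ^ (m + 1) →
  volume {z : Fin m → ℝ | hz z ≤ 2 * H ∧ ((∃ i, |z i| ≤ Z) ∨ |∑ i, z i| ≤ Z ∨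
    |hz z - H| ≤ Z ∨ ((1 - del) * T ≤ pz z ∧ pz z ≤ (1 + del) * T))} ≤
    ENNReal.ofReal (C * (Z * H ^ (m - 1) + del * H ^ m))

/-! ## Lattice points -/

/-- CUB: a set of lattice points of a coset modulo `q` against the volume: the difference is at most
the number of cubes of side `q` which meet the boundary. -/
def T_CUB : Prop := ∀ (m q : ℕ) (a : Fin m → ℤ) (A B : Set (Fin m → ℝ)), 1 ≤ q →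
  MeasurableSet A → MeasurableSet B → volume A ≠ ⊤ → volume B ≠ ⊤ → Bornology.IsBounded A →
  (∀ y z : Fin m → ℝ, (∀ i, |y i - z i| ≤ q) → y ∈ A → z ∉ A → y ∈ B ∧ z ∈ B) →
  {z : Fin m → ℤ | (∀ i, (q : ℤ) ∣ z i - a i) ∧ (fun i => (z i : ℝ)) ∈ A}.Finite ∧
  |(({z : Fin m → ℤ | (∀ i, (q : ℤ) ∣ z i - a i) ∧ (fun i => (z i : ℝ)) ∈ A}.ncard : ℝ)) -
    (volume A).toReal / (q : ℝ) ^ m| ≤ 2 * (volume B).toReal / (q : ℝ) ^ m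

/-- LAT: points of a coset of `q ℤ ^ m` in `Rg m T H`. -/
def T_LAT : Prop := ∀ m : ℕ, 2 ≤ m → ∃ C : ℝ, 0 < C ∧ ∀ (T H : ℝ) (q : ℕ) (a : Fin m → ℤ),
  1 ≤ T → 1 ≤ q → (q : ℝ) ≤ H → T ≤ H ^ (m + 1) →
  {z : Fin m → ℤ | (∀ i, (q : ℤ) ∣ z i - a i) ∧ (fun i => (z i : ℝ)) ∈ Rg m T H}.Finite ∧
  |(({z : Fin m → ℤ | (∀ i, (q : ℤ) ∣ z i - a i) ∧ (fun i => (z i : ℝ)) ∈ Rg m T H}.ncard : ℝ)) -
    (volume (Rg m T H)).toReal / (q : ℝ) ^ m| ≤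
    C * (q : ℝ) ^ ((1 / 2 : ℝ) - m) * H ^ ((m : ℝ) - 1 / 2)

/-- COS: the number of cosets modulo `D` with given pairwise coprime divisors. -/
def T_COS : Prop := ∀ (m : ℕ) (d : Fin (m + 1) → ℕ), 1 ≤ m → (∀ i, 1 ≤ d i) →
  (∀ i j, i ≠ j → (d i).Coprime (d j)) →
  {a : Fin m → Fin (∏ i, d i) | (∀ i : Fin m, d i.castSucc ∣ (a i : ℕ)) ∧
    d (Fin.last m) ∣ ∑ i, (a i : ℕ)}.ncard = (∏ i, d i) ^ (m - 1)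

/-- SUB: points of the hyperplane with given pairwise coprime divisors. -/
def T_SUB : Prop := ∀ m : ℕ, 2 ≤ m → ∃ C : ℝ, 0 < C ∧ ∀ (d : Fin (m + 1) → ℕ) (T H : ℝ),
  (∀ i, 1 ≤ d i) → (∀ i j, i ≠ j → (d i).Coprime (d j)) → 1 ≤ T → T ≤ H ^ (m + 1) →
  ((∏ i, d i : ℕ) : ℝ) ≤ H →
  {x : Fin (m + 1) → ℤ | ∑ i, x i = 0 ∧ (∀ i, (d i : ℤ) ∣ x i) ∧ |((∏ i, x i : ℤ) : ℝ)| ≤ T ∧
    (height x : ℝ) ≤ H}.Finite ∧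
  |(({x : Fin (m + 1) → ℤ | ∑ i, x i = 0 ∧ (∀ i, (d i : ℤ) ∣ x i) ∧
    |((∏ i, x i : ℤ) : ℝ)| ≤ T ∧ (height x : ℝ) ≤ H}.ncard : ℝ)) -
    (volume (Rg m T H)).toReal / ((∏ i, d i : ℕ) : ℝ)| ≤ C * H ^ ((m : ℝ) - 1 / 2)

/-! ## Tails -/

/-- SER: the series over the excess. -/
def T_SER : Prop := ∀ n : ℕ, 3 ≤ n → ∃ c C : ℝ, 0 < c ∧ 0 < C ∧ ∀ (Y : ℝ) (F : Finset ℕ), 1 ≤ Y →
  (∀ e ∈ F, 1 ≤ e ∧ Y ≤ (e : ℝ)) →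
  ∑ e ∈ F, (n : ℝ) ^ e.primeFactors.card * (e : ℝ) ^ (-(1 / (n : ℝ))) /
    ((∏ p ∈ e.primeFactors, p : ℕ) : ℝ) ≤ C * Y ^ (-c)

/-- EXD: the divisors given by the excess: if the excess is `e`, then the tuple has divisors `d i`,
pairwise coprime with product `e rad e`; there are at most `n ^ ω(e)` tuples of divisors. -/
def T_EXD : Prop := ∀ (n e : ℕ), 1 ≤ n → 1 ≤ e → ∃ F : Finset (Fin n → ℕ),
  F.card ≤ n ^ e.primeFactors.card ∧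
  (∀ d ∈ F, (∀ i, 1 ≤ d i) ∧ (∀ i j, i ≠ j → (d i).Coprime (d j)) ∧
    ∏ i, d i = e * ∏ p ∈ e.primeFactors, p) ∧
  ∀ x : Fin n → ℤ, Admissible x → exc x = e → ∃ d ∈ F, ∀ i, (d i : ℤ) ∣ x i

/-- VIO: the landed theorem. -/
def T_VIO : Prop := ∀ n : ℕ, 3 ≤ n → ∀ ε : ℝ, 0 < ε → ∃ ρ δ C : ℝ, 0 < ρ ∧ 0 < δ ∧ 0 < C ∧
  ∀ X : ℝ, 2 ≤ X → (Violators n (1 / n + ε) ε ρ X).Finite ∧
    ((Violators n (1 / n + ε) ε ρ X).ncard : ℝ) ≤ C * X ^ (1 - 1 / (n : ℝ) - δ)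

/-- EXC: few tuples have a large excess. -/
def T_EXC : Prop := ∀ n : ℕ, 3 ≤ n → ∃ c C : ℝ, 0 < c ∧ 0 < C ∧ ∀ X : ℝ, 1 ≤ X →
  {x : Fin n → ℤ | Admissible x ∧ (height x : ℝ) ≤ X ^ (1 / (n : ℝ) + e0 n) ∧
    X ^ (2 * n * e0 n) < (exc x : ℝ)}.Finite ∧
  (({x : Fin n → ℤ | Admissible x ∧ (height x : ℝ) ≤ X ^ (1 / (n : ℝ) + e0 n) ∧
    X ^ (2 * n * e0 n) < (exc x : ℝ)}.ncard : ℝ)) ≤ C * X ^ (1 - 1 / (n : ℝ) - c)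

/-- TLY: the tuples with excess larger than `Y`. -/
def T_TLY : Prop := ∀ n : ℕ, 3 ≤ n → ∃ c C : ℝ, 0 < c ∧ 0 < C ∧ ∀ X Y : ℝ, 1 ≤ X → 1 ≤ Y →
  {x : Fin n → ℤ | Admissible x ∧ (radical (∏ i, x i) : ℝ) ≤ X ∧
    (height x : ℝ) ≤ X ^ (1 / (n : ℝ) + e0 n) ∧ Y < (exc x : ℝ)}.Finite ∧
  (({x : Fin n → ℤ | Admissible x ∧ (radical (∏ i, x i) : ℝ) ≤ X ∧
    (height x : ℝ) ≤ X ^ (1 / (n : ℝ) + e0 n) ∧ Y < (exc x : ℝ)}.ncard : ℝ)) ≤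
    C * (Y ^ (-c) * X ^ (1 - 1 / (n : ℝ)) + X ^ (1 - 1 / (n : ℝ) - c))

/-- TLH: the tuples with small excess and large height. -/
def T_TLH : Prop := ∀ n : ℕ, 3 ≤ n → ∃ c : ℝ, 0 < c ∧ ∀ Y : ℝ, 1 ≤ Y → ∃ C : ℝ, 0 < C ∧
  ∀ X lam : ℝ, 1 ≤ X → 1 ≤ lam →
  {x : Fin n → ℤ | Admissible x ∧ (radical (∏ i, x i) : ℝ) ≤ X ∧
    (height x : ℝ) ≤ X ^ (1 / (n : ℝ) + e0 n) ∧ (exc x : ℝ) ≤ Y ∧
    lam * X ^ (1 / (n : ℝ)) < (height x : ℝ)}.Finite ∧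
  (({x : Fin n → ℤ | Admissible x ∧ (radical (∏ i, x i) : ℝ) ≤ X ∧
    (height x : ℝ) ≤ X ^ (1 / (n : ℝ) + e0 n) ∧ (exc x : ℝ) ≤ Y ∧
    lam * X ^ (1 / (n : ℝ)) < (height x : ℝ)}.ncard : ℝ)) ≤
    C * (lam ^ (-(1 / 2) : ℝ) * X ^ (1 - 1 / (n : ℝ)) + X ^ (1 - 1 / (n : ℝ) - c))

end Pool.Agent.H82.EQ
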