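import Pool.Agent.H71.EQ.Targets
import Pool.Agent.H82.EQ.VS

/-!
# The row VFN: the volume is finite
-/

set_option autoImplicit false

open MeasureTheory Set

namespace Pool.Agent.H82.EQ

open Pool.Agent.H71.EQ

theorem PR_eq_pz {k : ℕ} (z : Fin k → ℝ) : PR z = pz z := by
  unfold PR pz extR
  rw [Fin.prod_univ_castSucc]
  simp only [Fin.snoc_castSucc, Fin.snoc_last]
  rw [mul_neg, abs_neg]

theorem continuous_extR {k : ℕ} (i : Fin (k + 1)) : Continuous fun z : Fin k → ℝ => extR z i := by
  unfold extR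
  refine Fin.lastCases ?_ (fun j => ?_) i
  · simp only [Fin.snoc_last]
    fun_prop
  · simp only [Fin.snoc_castSucc]
    fun_prop

theorem continuous_PR {k : ℕ} : Continuous fun z : Fin k → ℝ => PR z := by
  unfold PR
  exact (continuous_finsetProd _ fun i _ => continuous_extR i).abs

/-- VFN -/
theorem pf_VFN : T_VFN := by
  intro k hk
  have hk0 : (2 : ℝ) ≤ k := by exact_mod_cast hk
  refine ⟨?_, ?_⟩
  · have h := vol_ne_top hk
    have e : {z : Fin k → ℝ | PR z ≤ 1} = {z : Fin k → ℝ | pz z ≤ 1} := by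
      ext z
      show PR z ≤ 1 ↔ pz z ≤ 1
      rw [PR_eq_pz]
    rw [e]
    exact lt_top_iff_ne_top.2 h
  · obtain ⟨w, hw⟩ : ∃ w : Fin k → ℝ, w = fun _ => 1 / (k : ℝ) := ⟨_, rfl⟩
    have hsum : ∑ i, w i = 1 := by
      rw [hw, Finset.sum_const, Finset.card_univ, Fintype.card_fin, nsmul_eq_mul]
      field_simp
    have hprod : ∏ i, w i = (1 / (k : ℝ)) ^ k := by
      rw [hw, Finset.prod_const, Finset.card_univ, Fintype.card_fin]
    have hPR : PR w = (1 / (k : ℝ)) ^ k := by
      rw [PR_eq_pz, pz, hsum, hprod, mul_one, abs_of_nonneg (by positivity)]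
    have h1 : (1 / (k : ℝ)) ^ k < 1 := by
      apply pow_lt_one₀ (by positivity) _ (by omega)
      rw [div_lt_one (by linarith)]
      linarith
    have h0 : 0 < (1 / (k : ℝ)) ^ k := by positivity
    refine ⟨(1 / (k : ℝ)) ^ k / 2, 2, by linarith, by linarith, by norm_num, ?_⟩
    have hopen : IsOpen {z : Fin k → ℝ | (1 / (k : ℝ)) ^ k / 2 < PR z ∧ PR z < 1 ∧
        ∀ i, |extR z i| < 2} := by
      have e : {z : Fin k → ℝ | (1 / (k : ℝ)) ^ k / 2 < PR z ∧ PR z < 1 ∧
          ∀ i, |extR z i| < 2} = {z | (1 / (k : ℝ)) ^ k / 2 < PR z} ∩ ({z | PR z < 1} ∩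
          ⋂ i, {z | |extR z i| < 2}) := by
        ext z
        simp
      rw [e]
      refine (isOpen_lt continuous_const continuous_PR).inter
        ((isOpen_lt continuous_PR continuous_const).inter (isOpen_iInter_of_finite fun i => ?_))
      exact isOpen_lt (continuous_extR i).abs continuous_const
    have hne : {z : Fin k → ℝ | (1 / (k : ℝ)) ^ k / 2 < PR z ∧ PR z < 1 ∧
        ∀ i, |extR z i| < 2}.Nonempty := by
      refine ⟨w, ?_, ?_, ?_⟩
      · rw [hPR]
        linarith
      · rw [hPR]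
        exact h1
      · intro i
        refine Fin.lastCases ?_ (fun j => ?_) i
        · unfold extR
          rw [Fin.snoc_last, hsum]
          norm_num
        · unfold extR
          rw [Fin.snoc_castSucc, hw]
          show |1 / (k : ℝ)| < 2
          rw [abs_of_pos (by positivity), div_lt_iff₀ (by linarith)]
          linarith
    refine lt_of_lt_of_le (hopen.measure_pos volume hne) (measure_mono ?_)
    intro z hz
    refine ⟨hz.1, hz.2.1.le, fun i => ?_⟩
    rw [Nat.cast_one, Real.one_rpow, mul_one]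
    exact (hz.2.2 i).le

end Pool.Agent.H82.EQ
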