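import Pool.Agent.H82.EQ.Targets

/-!
# The volume of the cusps
-/

set_option autoImplicit false

open MeasureTheory Set

namespace Pool.Agent.H82.EQ

/-- an even function -/
theorem integrable_abs {f : ℝ → ℝ} (hf : IntegrableOn f (Ioi 0)) :
    Integrable fun x => f |x| := by
  have h2 : IntegrableOn (fun x : ℝ => f |x|) (Ioi 0) :=
    hf.congr_fun (fun x hx => by simp only [abs_of_pos (show (0 : ℝ) < x from hx)])
      measurableSet_Ioi
  have h3 : IntegrableOn (fun x : ℝ => f |x|) (Iio 0) := by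
    have e := (Measure.measurePreserving_neg (volume : Measure ℝ)).integrableOn_comp_preimage
      (Homeomorph.neg ℝ).measurableEmbedding (f := fun x : ℝ => f |x|) (s := Ioi 0)
    have e2 := e.2 h2
    have e3 : (Neg.neg ⁻¹' Ioi (0 : ℝ)) = Iio 0 := by
      ext x
      simp only [mem_preimage, mem_Ioi, mem_Iio]
      constructor
      · intro a
        linarith
      · intro a
        linarith
    rw [e3] at e2
    refine e2.congr_fun (fun x _ => ?_) measurableSet_Iio
    simp only [Function.comp_apply, abs_neg]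
  have e6 : IntegrableOn (fun x : ℝ => f |x|) {(0 : ℝ)} := integrableOn_singleton (hx := by simp)
  have e7 := (h3.union e6).union h2
  have e8 : (Iio (0 : ℝ) ∪ {0}) ∪ Ioi 0 = univ := by
    rw [Iio_union_right, Iic_union_Ioi]
  rw [e8] at e7
  exact integrableOn_univ.1 e7

/-- the one-dimensional weight -/
noncomputable def wt (th L x : ℝ) : ℝ := if |x| ≤ L then |x| ^ (-th) else 0

theorem wt_nonneg (th L x : ℝ) : 0 ≤ wt th L x := by
  unfold wt
  split_ifs
  · exact Real.rpow_nonneg (abs_nonneg x) _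
  · exact le_rfl

theorem wt_integrable {th L : ℝ} (h : th < 1) (hL : 0 < L) : Integrable (wt th L) := by
  have h1 : IntegrableOn (fun x : ℝ => x ^ (-th)) (Ioc 0 L) := by
    have := intervalIntegral.intervalIntegrable_rpow' (a := 0) (b := L) (r := -th) (by linarith)
    rwa [intervalIntegrable_iff_integrableOn_Ioc_of_le hL.le] at this
  have h2 : IntegrableOn (fun x : ℝ => if x ≤ L then x ^ (-th) else 0) (Ioi 0) := by
    have e : (fun x : ℝ => if x ≤ L then x ^ (-th) else 0) =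
        indicator (Iic L) (fun x => x ^ (-th)) := by
      funext x
      by_cases hx : x ≤ L
      · rw [if_pos hx, indicator_of_mem (show x ∈ Iic L from hx)]
      · rw [if_neg hx, indicator_of_notMem (show x ∉ Iic L from hx)]
    rw [e, integrableOn_indicator_iff measurableSet_Iic, inter_comm, Ioi_inter_Iic]
    exact h1
  exact integrable_abs h2

theorem wt_integral {th L : ℝ} (h : th < 1) (hL : 0 < L) :
    ∫ x, wt th L x = 2 * (L ^ (1 - th) / (1 - th)) := by
  have h1 : ∫ x, wt th L x = 2 * ∫ x in Ioi (0 : ℝ), (if x ≤ L then x ^ (-th) else 0) :=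
    integral_comp_abs (f := fun t : ℝ => if t ≤ L then t ^ (-th) else 0)
  rw [h1]
  congr 1
  have h2 : ∫ x in Ioi (0 : ℝ), (if x ≤ L then x ^ (-th) else 0) = ∫ x in Ioc 0 L, x ^ (-th) := by
    have e : (fun x : ℝ => if x ≤ L then x ^ (-th) else 0) =
        indicator (Iic L) (fun x => x ^ (-th)) := by
      funext x
      by_cases hx : x ≤ L
      · rw [if_pos hx, indicator_of_mem (show x ∈ Iic L from hx)]
      · rw [if_neg hx, indicator_of_notMem (show x ∉ Iic L from hx)]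
    rw [e, setIntegral_indicator measurableSet_Iic, Ioi_inter_Iic]
  rw [h2, ← intervalIntegral.integral_of_le hL.le, integral_rpow (Or.inl (by linarith))]
  rw [Real.zero_rpow (by linarith : -th + 1 ≠ 0)]
  rw [show -th + 1 = 1 - th by ring, sub_zero]

theorem meas_slice {k : ℕ} (L P : ℝ) :
    MeasurableSet {y : Fin k → ℝ | (∀ i, |y i| ≤ L) ∧ ∏ i, |y i| ≤ P} := by
  have e : {y : Fin k → ℝ | (∀ i, |y i| ≤ L) ∧ ∏ i, |y i| ≤ P} =
      (⋂ i, {y : Fin k → ℝ | |y i| ≤ L}) ∩ {y | ∏ i, |y i| ≤ P} := by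
    ext y
    simp
  rw [e]
  refine MeasurableSet.inter (MeasurableSet.iInter fun i =>
    measurableSet_le ((measurable_pi_apply i).abs) measurable_const) ?_
  exact measurableSet_le (Finset.measurable_fun_prod _ fun i _ => (measurable_pi_apply i).abs)
    measurable_const

/-- SL: the volume of a slice -/
theorem slice {k : ℕ} {th L P : ℝ} (h0 : 0 < th) (h : th < 1) (hL : 0 < L) (hP : 0 < P) :
    volume {y : Fin k → ℝ | (∀ i, |y i| ≤ L) ∧ ∏ i, |y i| ≤ P} ≤
      ENNReal.ofReal (P ^ th * (2 * (L ^ (1 - th) / (1 - th))) ^ k) := by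
  have hint : Integrable (fun y : Fin k → ℝ => ∏ i, wt th L (y i)) :=
    Integrable.fintype_prod (f := fun _ => wt th L) fun _ => wt_integrable h hL
  have hval : ∫ y : Fin k → ℝ, ∏ i, wt th L (y i) = (2 * (L ^ (1 - th) / (1 - th))) ^ k := by
    rw [integral_fintype_prod_volume_eq_pow, wt_integral h hL, Fintype.card_fin]
  have hmeas := meas_slice (k := k) L P
  have hae : ∀ᵐ y : Fin k → ℝ, ∀ i, y i ≠ 0 := by
    rw [ae_all_iff]
    intro i
    exact Measure.ae_eval_ne (μ := fun _ : Fin k => (volume : Measure ℝ)) i 0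
  rw [← hval, ← integral_const_mul, ofReal_integral_eq_lintegral_ofReal (hint.const_mul _)
    (Filter.Eventually.of_forall fun y => mul_nonneg (Real.rpow_nonneg hP.le _)
      (Finset.prod_nonneg fun i _ => wt_nonneg _ _ _)), ← lintegral_indicator_one hmeas]
  apply lintegral_mono_ae
  filter_upwards [hae] with y hy
  by_cases hm : y ∈ {y : Fin k → ℝ | (∀ i, |y i| ≤ L) ∧ ∏ i, |y i| ≤ P}
  · rw [indicator_of_mem hm, Pi.one_apply, ← ENNReal.ofReal_one]
    apply ENNReal.ofReal_le_ofReal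
    have e1 : ∏ i, wt th L (y i) = (∏ i, |y i|) ^ (-th) := by
      rw [← Real.finsetProd_rpow _ _ fun i _ => abs_nonneg _]
      refine Finset.prod_congr rfl fun i _ => ?_
      unfold wt
      rw [if_pos (hm.1 i)]
    have hpos : 0 < ∏ i, |y i| := Finset.prod_pos fun i _ => abs_pos.2 (hy i)
    rw [e1, Real.rpow_neg hpos.le, ← div_eq_mul_inv, le_div_iff₀ (Real.rpow_pos_of_pos hpos _),
      one_mul]
    exact Real.rpow_le_rpow hpos.le hm.2 h0.le
  · rw [indicator_of_notMem hm]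
    exact bot_le

/-- the outer integral -/
theorem outer {a c : ℝ} (ha : 0 < a) (hc : 0 ≤ c) :
    ∫⁻ t : ℝ, ENNReal.ofReal (if a < |t| then c * |t| ^ (-(3 / 2) : ℝ) else 0) =
      ENNReal.ofReal (4 * c * a ^ (-(1 / 2) : ℝ)) := by
  have e : (fun x : ℝ => if a < x then c * x ^ (-(3 / 2) : ℝ) else 0) =
      indicator (Ioi a) (fun x => c * x ^ (-(3 / 2) : ℝ)) := by
    funext x
    by_cases hx : a < x
    · rw [if_pos hx, indicator_of_mem (show x ∈ Ioi a from hx)]
    · rw [if_neg hx, indicator_of_notMem (show x ∉ Ioi a from hx)]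
  have h0 : IntegrableOn (fun x : ℝ => c * x ^ (-(3 / 2) : ℝ)) (Ioi a) :=
    (integrableOn_Ioi_rpow_of_lt (by norm_num) ha).const_mul c
  have h1 : IntegrableOn (fun x : ℝ => if a < x then c * x ^ (-(3 / 2) : ℝ) else 0) (Ioi 0) := by
    rw [e, integrableOn_indicator_iff measurableSet_Ioi, Ioi_inter_Ioi,
      max_eq_left ha.le]
    exact h0
  have h2 := integrable_abs h1
  rw [← ofReal_integral_eq_lintegral_ofReal h2 (Filter.Eventually.of_forall fun t => by
    show (0 : ℝ) ≤ if a < |t| then c * |t| ^ (-(3 / 2) : ℝ) else 0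
    split_ifs
    · exact mul_nonneg hc (Real.rpow_nonneg (abs_nonneg t) _)
    · exact le_rfl)]
  congr 1
  rw [integral_comp_abs (f := fun t : ℝ => if a < t then c * t ^ (-(3 / 2) : ℝ) else 0), e,
    setIntegral_indicator measurableSet_Ioi, Ioi_inter_Ioi, max_eq_right ha.le,
    integral_const_mul, integral_Ioi_rpow_of_lt (by norm_num) ha]
  norm_num
  ring

/-- the part where the entry `j` and the sum are large -/
def Gj {k : ℕ} (j : Fin (k + 1)) (a M : ℝ) : Set (Fin (k + 1) → ℝ) :=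
  {z | a < |z j| ∧ (∀ i, |z (j.succAbove i)| ≤ M * |z j|) ∧
    ∏ i, |z (j.succAbove i)| ≤ M ^ 2 / |z j| ^ 2}

theorem vol_Gj {k : ℕ} (j : Fin (k + 1)) {a M : ℝ} (ha : 0 < a) (hM : 0 < M) :
    volume (Gj j a M) ≤ ENNReal.ofReal (4 * ((M ^ 2) ^ (1 - 1 / (2 * ((k : ℝ) + 2))) *
      (2 * (M ^ (1 / (2 * ((k : ℝ) + 2))) * (2 * ((k : ℝ) + 2)))) ^ k) * a ^ (-(1 / 2) : ℝ)) := by
  obtain ⟨th, hth⟩ : ∃ th : ℝ, th = 1 - 1 / (2 * ((k : ℝ) + 2)) := ⟨_, rfl⟩
  have hk : (0 : ℝ) ≤ k := Nat.cast_nonneg k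
  have hth1 : th < 1 := by
    rw [hth]
    have : (0 : ℝ) < 1 / (2 * ((k : ℝ) + 2)) := by positivity
    linarith
  have hth0 : 0 < th := by
    rw [hth]
    have : 1 / (2 * ((k : ℝ) + 2)) ≤ 1 / 4 := by
      apply one_div_le_one_div_of_le (by norm_num)
      linarith
    linarith
  obtain ⟨c, hc⟩ : ∃ c : ℝ, c = (M ^ 2) ^ th * (2 * (M ^ (1 - th) / (1 - th))) ^ k := ⟨_, rfl⟩
  have h1th : 1 - th = 1 / (2 * ((k : ℝ) + 2)) := by rw [hth]; ring
  have hc' : c = (M ^ 2) ^ (1 - 1 / (2 * ((k : ℝ) + 2))) *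
      (2 * (M ^ (1 / (2 * ((k : ℝ) + 2))) * (2 * ((k : ℝ) + 2)))) ^ k := by
    rw [hc, h1th, hth]
    congr 3
    field_simp
  have hc0 : 0 ≤ c := by
    rw [hc]
    have : 0 < 1 - th := by linarith
    positivity
  rw [← hc', ← outer ha hc0]
  have hS : MeasurableSet {p : ℝ × (Fin k → ℝ) | a < |p.1| ∧ (∀ i, |p.2 i| ≤ M * |p.1|) ∧
      ∏ i, |p.2 i| ≤ M ^ 2 / |p.1| ^ 2} := by
    have e : {p : ℝ × (Fin k → ℝ) | a < |p.1| ∧ (∀ i, |p.2 i| ≤ M * |p.1|) ∧
        ∏ i, |p.2 i| ≤ M ^ 2 / |p.1| ^ 2} = {p : ℝ × (Fin k → ℝ) | a < |p.1|} ∩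
        ((⋂ i, {p : ℝ × (Fin k → ℝ) | |p.2 i| ≤ M * |p.1|}) ∩
          {p : ℝ × (Fin k → ℝ) | ∏ i, |p.2 i| ≤ M ^ 2 / |p.1| ^ 2}) := by
      ext p
      simp
    rw [e]
    refine (measurableSet_lt measurable_const measurable_fst.abs).inter
      ((MeasurableSet.iInter fun i => measurableSet_le
        ((measurable_pi_apply i).comp measurable_snd).abs
        (measurable_fst.abs.const_mul _)).inter (measurableSet_le ?_ ?_))
    · exact Finset.measurable_fun_prod _ fun i _ => ((measurable_pi_apply i).comp measurable_snd).abs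
    · exact (measurable_fst.abs.pow_const 2).const_div _
  have hpre : Gj j a M = (MeasurableEquiv.piFinSuccAbove (fun _ => ℝ) j) ⁻¹'
      {p : ℝ × (Fin k → ℝ) | a < |p.1| ∧ (∀ i, |p.2 i| ≤ M * |p.1|) ∧
        ∏ i, |p.2 i| ≤ M ^ 2 / |p.1| ^ 2} := by
    ext z
    rfl
  rw [hpre, (volume_preserving_piFinSuccAbove (fun _ => ℝ) j).measure_preimage
    hS.nullMeasurableSet, Measure.volume_eq_prod, Measure.prod_apply hS]
  apply lintegral_mono
  intro t
  show volume {y : Fin k → ℝ | a < |t| ∧ (∀ i, |y i| ≤ M * |t|) ∧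
    ∏ i, |y i| ≤ M ^ 2 / |t| ^ 2} ≤
    ENNReal.ofReal (if a < |t| then c * |t| ^ (-(3 / 2) : ℝ) else 0)
  by_cases ht : a < |t|
  · have ht0 : 0 < |t| := ha.trans ht
    rw [if_pos ht]
    have h1 : {y : Fin k → ℝ | a < |t| ∧ (∀ i, |y i| ≤ M * |t|) ∧
        ∏ i, |y i| ≤ M ^ 2 / |t| ^ 2} =
        {y : Fin k → ℝ | (∀ i, |y i| ≤ M * |t|) ∧ ∏ i, |y i| ≤ M ^ 2 / |t| ^ 2} := by
      ext y
      simp [ht]
    rw [h1]
    refine (slice hth0 hth1 (mul_pos hM ht0) (by positivity)).trans (ENNReal.ofReal_le_ofReal ?_)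
    apply le_of_eq
    rw [Real.div_rpow (by positivity) (by positivity), Real.mul_rpow hM.le ht0.le, hc]
    have e1 : (|t| ^ 2) ^ th = |t| ^ (2 * th) := by
      rw [← Real.rpow_natCast, ← Real.rpow_mul ht0.le]
      norm_num
    have e2 : (2 * (M ^ (1 - th) * |t| ^ (1 - th) / (1 - th))) ^ k =
        (2 * (M ^ (1 - th) / (1 - th))) ^ k * |t| ^ ((1 - th) * k) := by
      rw [Real.rpow_mul ht0.le, Real.rpow_natCast, ← mul_pow]
      congr 1
      ring
    rw [e1, e2]
    have e3 : |t| ^ (-(3 / 2) : ℝ) = |t| ^ ((1 - th) * k) / |t| ^ (2 * th) := by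
      rw [← Real.rpow_sub ht0]
      congr 1
      rw [hth]
      field_simp
      ring
    rw [e3]
    ring
  · rw [if_neg ht]
    have h1 : {y : Fin k → ℝ | a < |t| ∧ (∀ i, |y i| ≤ M * |t|) ∧
        ∏ i, |y i| ≤ M ^ 2 / |t| ^ 2} = ∅ := by
      ext y
      simp [ht]
    rw [h1]
    simp

end Pool.Agent.H82.EQ
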